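import Pool.Agent.H87.AX.Targets4

/-! The Hessian bound in all dimensions (MP_2697e3_an): working definitions.
Pages: H22_ALLN.md, H80_ALLN.md, H87_D3.md in the team store. The dimension is `n = d + 2`. -/

namespace Pool.Agent.H22.AN

open MeasureTheory Metric Set Filter Topology Pool.Agent.H87.SN Pool.Agent.H87.SH Pool.Agent.H87.AX
open scoped ContDiff RealInnerProductSpace ENNReal

noncomputable section

/-- The space of dimension `d + 2`. -/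
abbrev V (d : ℕ) := E (d + 2)

/-- The energy measure, on the ball of radius two. -/
def mu {d m : ℕ} (G : V d → V d →L[ℝ] E m) : Measure (V d) :=
  (volume.restrict (ball (0 : V d) 2)).withDensity (fun x => ENNReal.ofReal (nsq (G x)))

/-- The density. -/
def th {d m : ℕ} (G : V d → V d →L[ℝ] E m) (x : V d) (r : ℝ) : ℝ := (mu G).real (ball x r) / r ^ d

/-- Orthonormal pairs. -/
def ON {d : ℕ} (ν₁ ν₂ : V d) : Prop := ‖ν₁‖ = 1 ∧ ‖ν₂‖ = 1 ∧ ⟪ν₁, ν₂⟫ = 0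

/-- The squared distance of `y` to the plane of codimension two through `a` which is orthogonal to the
orthonormal vectors `ν₁`, `ν₂`. -/
def dl {d : ℕ} (a ν₁ ν₂ y : V d) : ℝ := ⟪y - a, ν₁⟫ ^ 2 + ⟪y - a, ν₂⟫ ^ 2

/-- The square of the beta number of the energy measure at the point `x` and the scale `t`. -/
def bt {d m : ℕ} (G : V d → V d →L[ℝ] E m) (x : V d) (t : ℝ) : ℝ≥0∞ :=
  ⨅ (a : V d) (ν₁ : V d) (ν₂ : V d) (_ : ON ν₁ ν₂), ENNReal.ofReal ((t ^ (d + 2))⁻¹) *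
    ∫⁻ y in ball x (8 * t), ENNReal.ofReal (dl a ν₁ ν₂ y) ∂(mu G)

/-- The beta number. -/
def bs {d m : ℕ} (G : V d → V d →L[ℝ] E m) (x : V d) (t : ℝ) : ℝ≥0∞ := bt G x t ^ (1 / 2 : ℝ)

/-- Square integrable, stationary, density bounded by `Λ`. -/
structure GD {d m : ℕ} (Λ : ℝ) (G : V d → V d →L[ℝ] E m) : Prop where
  memG : MemLp G 2 (volume.restrict (ball (0 : V d) 2))
  stat : Stat1 G
  den : ∀ (x : V d) (r : ℝ), 0 < r → ball x r ⊆ ball 0 2 → (mu G).real (ball x r) ≤ Λ * r ^ d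

/-- What is used of the map. -/
structure SM (d m : ℕ) (L Λ ε : ℝ) (U : Set (V d)) (u : V d → E m)
    (G : V d → V d →L[ℝ] E m) : Prop where
  gd : GD Λ G
  opn : IsOpen U
  sub : U ⊆ ball 0 2
  smooth : ContDiffOn ℝ ∞ u U
  ae : ∀ᵐ x ∂(volume.restrict U), G x = fderiv ℝ u x
  orth : Orth U u
  lapb : ∀ x ∈ U, ‖lap u x‖ ≤ L * en u x
  ang : ∀ x ∈ U, ∀ h : V d, |⟪fderiv ℝ (fderiv ℝ u) x h h, lap u x⟫| ≤
    L * ‖fderiv ℝ u x h‖ ^ 2 * en u x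
  sing : ∀ x ∈ ball (0 : V d) 2, x ∉ U → ∀ r : ℝ, 0 < r → ball x r ⊆ ball 0 2 →
    ε * r ^ d ≤ (mu G).real (ball x r)

/-- The regularity threshold `e`. -/
def EP (d m : ℕ) (L Λ ε e : ℝ) : Prop := ∀ (U : Set (V d)) (u : V d → E m)
  (G : V d → V d →L[ℝ] E m), SM d m L Λ ε U u G → ∀ (x : V d) (r : ℝ), 0 < r →
  ball x r ⊆ ball 0 2 → th G x r < 2 * e → ∀ y ∈ ball x (r / 2), y ∈ U ∧ r ^ 2 * en u y ≤ 1

/-- Dyadic scales. -/
def sj (j : ℕ) : ℝ := (1 / 2) ^ j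

/-- The drop of the density at `p` between the scales `s` and `s / 2^K`. -/
def dr {d m : ℕ} (G : V d → V d →L[ℝ] E m) (K : ℕ) (p : V d) (s : ℝ) : ℝ :=
  th G p s - th G p (s / 2 ^ K)

/-- The averaged drop in the cell with centre `x`, radius `s / 64`, between the scales `s` and
`s / 2^K`. -/
def Wc {d m : ℕ} (G : V d → V d →L[ℝ] E m) (K : ℕ) (x : V d) (s : ℝ) : ℝ≥0∞ :=
  ENNReal.ofReal ((s ^ d)⁻¹) * ∫⁻ p in ball x (s / 64), ENNReal.ofReal (dr G K p s) ∂(mu G)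

/-- Zoom: centre `c`, factor `r`, linear isometry `g`. -/
def zm {d : ℕ} (c : V d) (r : ℝ) (g : V d ≃ₗᵢ[ℝ] V d) (y : V d) : V d := c + r • g y

/-- Zoom of the gradient. -/
def zG {d m : ℕ} (c : V d) (r : ℝ) (g : V d ≃ₗᵢ[ℝ] V d) (G : V d → V d →L[ℝ] E m) (y : V d) :
    V d →L[ℝ] E m :=
  r • (G (zm c r g y)).comp (g.toContinuousLinearEquiv : V d →L[ℝ] V d)

/-- The frame of a pinched cell. -/
structure Fr {d m : ℕ} (G : V d → V d →L[ℝ] E m) (τ om e : ℝ) (x₀ : V d) : Prop where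
  x0 : ‖x₀‖ < 1 / 64
  ch : e ≤ th G x₀ (1 / 64)
  nz : ∫ x in ball (0 : V d) (7 / 8), nzs (G x) ≤ om
  p0 : th G 0 1 - th G 0 τ ≤ om

/-- Energy outside of the core of radius `rc`, in the ball of radius `R`. -/
def oc {d m : ℕ} (G : V d → V d →L[ℝ] E m) (rc R : ℝ) : ℝ :=
  ∫ x in {x : V d | x ∈ ball 0 R ∧ rc ≤ rho x}, nsq (G x)

/-- The right side of the local inequality, in the frame; `R = (1/2)^r`, `σ = (1/2)^a`, `h = (1/2)^b`. -/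
def Rr {d m : ℕ} (G : V d → V d →L[ℝ] E m) (e C : ℝ) (q a b r : ℕ) (x₀ : V d) : ℝ≥0∞ :=
  ENNReal.ofReal (C * (1 / 2) ^ q) * (
    ENNReal.ofReal ((((1 / 2) ^ b * (1 / 2) ^ r) ^ 2)⁻¹) *
      (∫⁻ x in {x : V d | x ∈ ball x₀ ((1 / 2) ^ r) ∧ e ≤ th G x ((1 / 2) ^ b * (1 / 2) ^ r)},
        bs G x ((1 / 2) ^ b * (1 / 2) ^ r)) +
    ENNReal.ofReal ((((1 / 2) ^ r) ^ 2)⁻¹) *
      (∫⁻ x in {x : V d | x ∈ ball x₀ ((1 / 2) ^ r) ∧ e ≤ th G x ((1 / 2) ^ r)},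
        bs G x ((1 / 2) ^ r)) +
    ENNReal.ofReal (((1 / 2) ^ r) ^ d) *
      (∫⁻ x in {x : V d | x ∈ ball x₀ (1 / 16) ∧ e ≤ th G x (1 / 8)}, bs G x (1 / 8)))

/-- The local inequality in the frame (the result of part B). `er`: regularity threshold, `e`: threshold
of the cells on the right side, `e₀`: lower threshold. The cell scale is `(1/2)^a * (1/2)^r`. -/
def T_LOC : Prop := ∀ (d m : ℕ) (L Λ ε er e e₀ : ℝ), 1 ≤ d → 0 ≤ L → 0 < Λ → 0 < ε → 0 < er →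
    EP d m L Λ ε er → 0 < e → e ≤ 2 * er → 0 < e₀ → ∃ C : ℝ, 0 ≤ C ∧ ∀ q : ℕ,
    ∃ (a b r K : ℕ) (om : ℝ), 4 ≤ a ∧ a < b ∧ 8 ≤ r ∧ 0 < om ∧
    ∀ (U : Set (V d)) (u : V d → E m) (G : V d → V d →L[ℝ] E m), SM d m L Λ ε U u G →
    ∀ x₀ : V d, Fr G ((1 / 2) ^ K) om e₀ x₀ →
    ENNReal.ofReal ((((1 / 2) ^ a * (1 / 2) ^ r) ^ 2)⁻¹) *
      (∫⁻ x in {x : V d | x ∈ ball x₀ ((1 / 2) ^ r / 256) ∧
          e₀ ≤ th G x ((1 / 2) ^ a * (1 / 2) ^ r)},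
        bs G x ((1 / 2) ^ a * (1 / 2) ^ r)) ≤ Rr G e C q a b r x₀ ∧
    ENNReal.ofReal ((((1 / 2) ^ a * (1 / 2) ^ r) ^ 2)⁻¹) *
      (∫⁻ x in {x : V d | x ∈ ball x₀ ((1 / 2) ^ r / 256) ∧
          e₀ ≤ th G x ((1 / 2) ^ a * (1 / 2) ^ r) ∧
          th G x ((1 / 2) ^ a * (1 / 2) ^ r / 8) < 2 * er},
        ENNReal.ofReal (Real.sqrt (th G x ((1 / 2) ^ a * (1 / 2) ^ r / 128)))) ≤
      Rr G e C q a b r x₀

end

end Pool.Agent.H22.AN
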