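import Pool.Agent.H22.AN.Defs

/-! The Hessian bound in all dimensions (MP_2697e3_an): target statements, part B1: windows, conservation
laws, centroids, comparison of planes, quantisation. -/

namespace Pool.Agent.H22.AN

open MeasureTheory Metric Set Filter Topology Pool.Agent.H87.SN Pool.Agent.H87.SH Pool.Agent.H87.AX
open scoped ContDiff RealInnerProductSpace ENNReal

noncomputable section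

/-! ### Definitions -/

/-- Cutoff in the distance to the plane: one for `rho ≤ h`, zero for `2 h ≤ rho`. -/
def chh {d : ℕ} (h : ℝ) (x : V d) : ℝ :=
  Real.smoothTransition ((4 - (x 0 ^ 2 + x 1 ^ 2) / h ^ 2) / 3)

/-- The integral of the kernel. -/
def cw (d : ℕ) : ℝ := ∫ v : E d, phi v

/-- The window with centre `z₀` and radius `t`, of integral one. -/
def bw {d : ℕ} (z₀ : E d) (t : ℝ) (z : E d) : ℝ := (cw d * t ^ d)⁻¹ * phi (t⁻¹ • (z - z₀))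

/-- The energy in the directions of the plane, in a tube. -/
def Ez {d m : ℕ} (G : V d → V d →L[ℝ] E m) (h Z : ℝ) : ℝ :=
  ∫ x in {x : V d | rho x < 2 * h ∧ ‖zp x‖ < Z}, nzs (G x)

/-- The energy of the annulus. -/
def In {d m : ℕ} (G : V d → V d →L[ℝ] E m) (h Z : ℝ) : ℝ :=
  ∫ x in {x : V d | h < rho x ∧ rho x < 2 * h ∧ ‖zp x‖ < Z}, nsq (G x)

/-- Mass of a window. -/
def ms {d m : ℕ} (G : V d → V d →L[ℝ] E m) (h : ℝ) (z₀ : E d) (t : ℝ) : ℝ :=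
  ∫ x in ball (0 : V d) 2, chh h x * bw z₀ t (zp x) * nsq (G x)

/-- Moment of a window. -/
def mo {d m : ℕ} (G : V d → V d →L[ℝ] E m) (h : ℝ) (j : Fin (d + 2)) (z₀ : E d) (t : ℝ) : ℝ :=
  ∫ x in ball (0 : V d) 2, chh h x * bw z₀ t (zp x) * x j * nsq (G x)

/-- Moment of a window in a direction of the plane, about the centre. -/
def mz {d m : ℕ} (G : V d → V d →L[ℝ] E m) (h : ℝ) (a : Fin d) (z₀ : E d) (t : ℝ) : ℝ :=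
  ∫ x in ball (0 : V d) 2, chh h x * (bw z₀ t (zp x) * (zp x a - z₀ a)) * nsq (G x)

/-- Second moment about the standard plane, in a ball. -/
def V2 {d m : ℕ} (G : V d → V d →L[ℝ] E m) (R : ℝ) : ℝ :=
  ∫ x in ball (0 : V d) R, rho x ^ 2 * nsq (G x)

/-- The squared horizontal distance to the graph of an affine function. -/
def hd {d : ℕ} (y0 y1 : ℝ) (s0 s1 : E d) (x : V d) : ℝ :=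
  (x 0 - (y0 + ⟪s0, zp x⟫)) ^ 2 + (x 1 - (y1 + ⟪s1, zp x⟫)) ^ 2

/-- Masses and moments of the windows of radius at least `h / 8`: constant, respectively affine, up to
the error `J`. -/
structure Cen {d m : ℕ} (G : V d → V d →L[ℝ] E m) (h R J mb y0 y1 : ℝ) (s0 s1 : E d) : Prop where
  w1 : ∀ (z₀ : E d) (t : ℝ), h / 8 ≤ t → t ≤ 1 / 16 → ‖z₀‖ ≤ R → |ms G h z₀ t - mb| ≤ J
  w2 : ∀ (z₀ : E d) (t : ℝ), h / 8 ≤ t → t ≤ 1 / 16 → ‖z₀‖ ≤ R →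
    |mo G h 0 z₀ t - mb * (y0 + ⟪s0, z₀⟫)| ≤ J ∧ |mo G h 1 z₀ t - mb * (y1 + ⟪s1, z₀⟫)| ≤ J
  w3 : ∀ (z₀ : E d) (t : ℝ), h / 8 ≤ t → t ≤ 1 / 16 → ‖z₀‖ ≤ R → ∀ a : Fin d, |mz G h a z₀ t| ≤ J

/-! ### Cutoff and windows -/

/-- Facts on the cutoff. -/
def T_CHF : Prop := ∃ C : ℝ, 0 ≤ C ∧ ∀ (d : ℕ) (h : ℝ), 0 < h → ContDiff ℝ ∞ (chh (d := d) h) ∧
    (∀ x : V d, 0 ≤ chh h x ∧ chh h x ≤ 1) ∧ (∀ x : V d, rho x ≤ h → chh h x = 1) ∧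
    (∀ x : V d, 2 * h ≤ rho x → chh h x = 0) ∧
    (∀ x v : V d, |fderiv ℝ (chh h) x v| ≤ C / h * ‖v‖) ∧
    (∀ (x : V d) (i : Fin d), fderiv ℝ (chh h) x (bv i.succ.succ) = 0) ∧
    (∀ x : V d, rho x < h → fderiv ℝ (chh h) x = 0) ∧
    (∀ x : V d, 2 * h < rho x → fderiv ℝ (chh h) x = 0)

/-- Facts on the windows. -/
def T_BWF : Prop := ∀ d : ℕ, 0 < cw d ∧ ∃ C : ℝ, 0 < C ∧ ∀ (z₀ : E d) (t : ℝ), 0 < t →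
    ContDiff ℝ 2 (bw z₀ t) ∧ (∀ z, 0 ≤ bw z₀ t z ∧ bw z₀ t z ≤ C / t ^ d) ∧
    (∀ z, t ≤ ‖z - z₀‖ → bw z₀ t z = 0) ∧ ∫ z, bw z₀ t z = 1 ∧
    (∀ z, ‖fderiv ℝ (bw z₀ t) z‖ ≤ C / t ^ (d + 1)) ∧
    (∀ z, ‖fderiv ℝ (fderiv ℝ (bw z₀ t)) z‖ ≤ C / t ^ (d + 2)) ∧
    (∀ z, ‖z - z₀‖ ≤ 7 / 8 * t → 1 / (C * t ^ d) ≤ bw z₀ t z) ∧
    (∀ z, |bw z₀ t z - bw 0 t z + fderiv ℝ (bw 0 t) z z₀| ≤ C / t ^ (d + 2) * ‖z₀‖ ^ 2)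

/-- The potential of the windows. -/
def T_BWP : Prop := ∀ d : ℕ, ∃ C : ℝ, 0 < C ∧ ∀ (z₀ : E d) (t : ℝ), 0 < t →
    (∀ (z : E d) (a : Fin d), HasDerivAt (fun s : ℝ => bw (z₀ + s • bv a) t z)
      (- fderiv ℝ (bw z₀ t) z (bv a)) 0) ∧
    ∃ φ : E d → ℝ, ContDiff ℝ 3 φ ∧ (∀ z, t ≤ ‖z - z₀‖ → φ z = 0) ∧
      (∀ z, |φ z| ≤ C / t ^ d) ∧ (∀ z, ‖fderiv ℝ φ z‖ ≤ C / t ^ (d + 1)) ∧
      (∀ z, ‖fderiv ℝ (fderiv ℝ φ) z‖ ≤ C / t ^ (d + 2)) ∧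
      (∀ (z : E d) (a : Fin d), t ^ 2 * fderiv ℝ φ z (bv a) = (z a - z₀ a) * bw z₀ t z) ∧
      (∀ z : E d, HasDerivAt (fun s : ℝ => bw z₀ s z) (- (t * lap φ z)) t) ∧
      (∀ z : E d, t * lap φ z =
        t⁻¹ * ∑ a : Fin d, fderiv ℝ (fun w : E d => (w a - z₀ a) * bw z₀ t w) z (bv a))

/-! ### Conservation laws -/

/-- Conservation of mass and of the moments. -/
def T_CNS : Prop := ∀ d : ℕ, ∃ C : ℝ, 0 ≤ C ∧ ∀ (m : ℕ) (G : V d → V d →L[ℝ] E m),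
    MemLp G 2 (volume.restrict (ball (0 : V d) 2)) → Stat1 G → ∀ h Z : ℝ, 0 < h → h ≤ 1 / 8 → 0 < Z →
    Z ≤ 1 →
    (∀ (φ : E d → ℝ) (B₀ B₁ : ℝ) (a : Fin d), ContDiff ℝ 1 φ → (∀ z, Z ≤ ‖z‖ → φ z = 0) →
      (∀ z, |φ z| ≤ B₀) → (∀ z, ‖fderiv ℝ φ z‖ ≤ B₁) →
      |∫ x in ball (0 : V d) 2, chh h x * fderiv ℝ φ (zp x) (bv a) * nsq (G x)| ≤
        C * (B₁ * Ez G h Z + B₀ / h * In G h Z)) ∧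
    (∀ (φ : E d → ℝ) (B₀ B₁ B₂ : ℝ) (j : Fin (d + 2)), ContDiff ℝ 2 φ →
      (∀ z, Z ≤ ‖z‖ → φ z = 0) → (∀ z, |φ z| ≤ B₀) → (∀ z, ‖fderiv ℝ φ z‖ ≤ B₁) →
      (∀ z, ‖fderiv ℝ (fderiv ℝ φ) z‖ ≤ B₂) → (j : ℕ) < 2 →
      |∫ x in ball (0 : V d) 2, chh h x * lap φ (zp x) * x j * nsq (G x)| ≤
        C * (h * B₂ * Ez G h Z + (B₁ + B₀ / h) * In G h Z))

/-- Masses of windows. -/
def T_MA1 : Prop := ∀ d : ℕ, ∃ C : ℝ, 0 ≤ C ∧ ∀ (m : ℕ) (G : V d → V d →L[ℝ] E m),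
    MemLp G 2 (volume.restrict (ball (0 : V d) 2)) → Stat1 G → ∀ h Z τ : ℝ, 0 < h → h ≤ 1 / 8 →
    0 < τ → Z ≤ 1 → ∀ (z₀ z₁ : E d) (t t₁ : ℝ), τ ≤ t → τ ≤ t₁ → ‖z₀‖ + t ≤ Z → ‖z₁‖ + t₁ ≤ Z →
    |ms G h z₀ t - ms G h z₁ t₁| ≤ C / (τ ^ (d + 2) * h) * (Ez G h Z + In G h Z)

/-- Moments of windows. -/
def T_MA2 : Prop := ∀ d : ℕ, ∃ C : ℝ, 0 ≤ C ∧ ∀ (m : ℕ) (G : V d → V d →L[ℝ] E m),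
    MemLp G 2 (volume.restrict (ball (0 : V d) 2)) → Stat1 G → ∀ h Z τ : ℝ, 0 < h → h ≤ 1 / 8 →
    0 < τ → Z ≤ 1 → ∀ (z₀ : E d) (t t₁ : ℝ) (j : Fin (d + 2)), τ ≤ t → τ ≤ t₁ → ‖z₀‖ + t ≤ Z →
    ‖z₀‖ + t₁ ≤ Z → (j : ℕ) < 2 →
    |mo G h j z₀ t - mo G h j z₀ t₁| ≤ C / (τ ^ (d + 2) * h) * (Ez G h Z + In G h Z)

/-- Moments of windows in the directions of the plane. -/
def T_MA3 : Prop := ∀ d : ℕ, ∃ C : ℝ, 0 ≤ C ∧ ∀ (m : ℕ) (G : V d → V d →L[ℝ] E m),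
    MemLp G 2 (volume.restrict (ball (0 : V d) 2)) → Stat1 G → ∀ h Z τ : ℝ, 0 < h → h ≤ 1 / 8 →
    0 < τ → Z ≤ 1 → ∀ (z₀ : E d) (t : ℝ) (a : Fin d), τ ≤ t → ‖z₀‖ + t ≤ Z →
    |mz G h a z₀ t| ≤ C / (τ ^ (d + 2) * h) * (Ez G h Z + In G h Z)

/-- Taylor expansion of the moments of the windows of fixed radius. -/
def T_TAY : Prop := ∀ d : ℕ, ∃ C : ℝ, 0 ≤ C ∧ ∀ (m : ℕ) (G : V d → V d →L[ℝ] E m) (Λ : ℝ),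
    GD Λ G → ∀ h : ℝ, 0 < h → h ≤ 1 / 8 → ∀ j : Fin (d + 2), (j : ℕ) < 2 → ∃ D : E d,
    |mo G h j 0 (1 / 16)| ≤ C * Real.sqrt (Λ * V2 G 1) ∧ ‖D‖ ≤ C * Real.sqrt (Λ * V2 G 1) ∧
    ∀ z₀ : E d, ‖z₀‖ ≤ 1 / 4 → |mo G h j z₀ (1 / 16) - mo G h j 0 (1 / 16) - ⟪D, z₀⟫| ≤
      C * ‖z₀‖ ^ 2 * Real.sqrt (Λ * V2 G 1)

/-- The tilt is controlled by the height (Caccioppoli). -/
def T_CAC : Prop := ∀ d : ℕ, ∃ C : ℝ, 0 ≤ C ∧ ∀ (m : ℕ) (G : V d → V d →L[ℝ] E m),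
    MemLp G 2 (volume.restrict (ball (0 : V d) 2)) → Stat1 G → ∀ r R : ℝ, 1 / 4 ≤ r → r < R →
    R ≤ 3 / 2 → ∫ x in ball (0 : V d) r, nzs (G x) ≤ C / (R - r) ^ 2 * V2 G R

/-- Masses and centroids of the windows. -/
def T_CEN : Prop := ∀ (d : ℕ) (Λ c : ℝ), 0 < Λ → 0 < c → ∃ C : ℝ, 0 ≤ C ∧
    ∀ (m : ℕ) (G : V d → V d →L[ℝ] E m), GD Λ G → ∀ h R : ℝ, 0 < h → h ≤ 1 / 16 → 0 < R →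
    R ≤ 1 / 4 → c ≤ ms G h 0 (1 / 16) → V2 G 1 ≤ 1 → ∃ (y0 y1 : ℝ) (s0 s1 : E d),
    |y0| + |y1| + ‖s0‖ + ‖s1‖ ≤ C * Real.sqrt (V2 G 1) ∧
    Cen G h R (C / h ^ (d + 5) * V2 G 1 + C * R ^ 2 * Real.sqrt (V2 G 1)) (ms G h 0 (1 / 16))
      y0 y1 s0 s1

/-- Masses of the windows in a frame with small errors. -/
def T_CE0 : Prop := ∀ d : ℕ, ∃ C : ℝ, 0 ≤ C ∧ ∀ (m : ℕ) (G : V d → V d →L[ℝ] E m),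
    MemLp G 2 (volume.restrict (ball (0 : V d) 2)) → Stat1 G → ∀ h rc : ℝ, 0 < rc → rc ≤ h →
    h ≤ 1 / 16 → Cen G h (1 / 4) (C / h ^ (d + 3) * ((∫ x in ball (0 : V d) (5 / 8), nzs (G x)) +
      oc G rc (5 / 8) + rc * (mu G).real (ball 0 2))) (ms G h 0 (1 / 16)) 0 0 0 0

/-- Lower bound of the mass. -/
def T_MLB : Prop := ∀ d : ℕ, ∃ c : ℝ, 0 < c ∧ ∀ (m : ℕ) (G : V d → V d →L[ℝ] E m),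
    MemLp G 2 (volume.restrict (ball (0 : V d) 2)) → ∀ (x₀ : V d) (h e r : ℝ), 0 < h → h ≤ 1 / 64 →
    0 ≤ e → (r = 1 / 64 ∨ r = 1 / 32) → ‖zp x₀‖ < 1 / 64 → rho x₀ ≤ 1 / 8 → e ≤ th G x₀ r →
    oc G h (5 / 8) ≤ e * r ^ d / 4 →
    Cen G h (1 / 4) (c * e) (ms G h 0 (1 / 16)) 0 0 0 0 → c * e ≤ ms G h 0 (1 / 16)

/-! ### Planes -/

/-- Linear algebra for two normal vectors. -/
def T_ALG : Prop := ∀ d : ℕ, ∃ C : ℝ, 1 ≤ C ∧ ∀ (a ν₁ ν₂ : V d) (y0 y1 : ℝ) (s0 s1 : E d)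
    (c : Option (Fin d) → V d) (z' : E d) (t η : ℝ), ON ν₁ ν₂ → 0 < t → t ≤ 1 → 0 ≤ η →
    C * η ≤ t → |y0| + |y1| + ‖s0‖ + ‖s1‖ ≤ 1 / C →
    (∀ o, |⟪c o - a, ν₁⟫| ≤ η ∧ |⟪c o - a, ν₂⟫| ≤ η) →
    (∀ o, hd y0 y1 s0 s1 (c o) ≤ η ^ 2) → ‖zp (c none) - z'‖ ≤ η →
    (∀ i : Fin d, ‖zp (c (some i)) - (z' + t • bv i)‖ ≤ η) →
    (‖zp ν₁‖ ≤ C * (η / t + ‖s0‖ + ‖s1‖) ∧ ‖zp ν₂‖ ≤ C * (η / t + ‖s0‖ + ‖s1‖)) ∧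
    ∀ x : V d, ‖zp x - z'‖ ≤ 8 * t → hd y0 y1 s0 s1 x ≤ 4 * dl a ν₁ ν₂ x + C * η ^ 2

/-- Jensen inequality for the centroid of a window. -/
def T_JEN : Prop := ∀ (d : ℕ) (c : ℝ), 0 < c → ∃ C : ℝ, 0 ≤ C ∧
    ∀ (m : ℕ) (G : V d → V d →L[ℝ] E m), MemLp G 2 (volume.restrict (ball (0 : V d) 2)) →
    ∀ (h R J mb y0 y1 : ℝ) (s0 s1 : E d), 0 < h → h ≤ 1 / 64 → 0 ≤ J → J ≤ c / 2 → c ≤ mb →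
    R ≤ 1 / 4 → |y0| + |y1| + ‖s0‖ + ‖s1‖ ≤ 1 → Cen G h R J mb y0 y1 s0 s1 →
    ∀ (z₀ : E d) (t : ℝ), h / 8 ≤ t → t ≤ 1 / 16 → ‖z₀‖ ≤ R → ∃ c₀ : V d,
    hd y0 y1 s0 s1 c₀ ≤ (C * J) ^ 2 ∧ ‖zp c₀ - z₀‖ ≤ C * J ∧
    ∀ (a ν₁ ν₂ : V d), ON ν₁ ν₂ → ENNReal.ofReal (dl a ν₁ ν₂ c₀) ≤ ENNReal.ofReal (C / t ^ d) *
      ∫⁻ x in {x : V d | rho x < 2 * h ∧ ‖zp x - z₀‖ < t}, ENNReal.ofReal (dl a ν₁ ν₂ x) ∂(mu G)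

/-- The second moment about the graph is controlled by the beta number. -/
def T_CMP : Prop := ∀ (d : ℕ) (Λ c : ℝ), 0 < Λ → 0 < c → ∃ C : ℝ, 1 ≤ C ∧
    ∀ (m : ℕ) (G : V d → V d →L[ℝ] E m), GD Λ G → ∀ (h R J mb y0 y1 : ℝ) (s0 s1 : E d), 0 < h →
    h ≤ 1 / 64 → R ≤ 1 / 4 → 0 ≤ J → c ≤ mb → |y0| + |y1| + ‖s0‖ + ‖s1‖ ≤ h / C →
    Cen G h R J mb y0 y1 s0 s1 → ∀ (x' : V d) (t : ℝ), h ≤ t → t ≤ 1 / 8 → rho x' ≤ t / 4 →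
    ‖zp x'‖ + t ≤ R → ball x' (8 * t) ⊆ ball 0 2 →
    ∫⁻ x in ball x' (6 * t), ENNReal.ofReal (hd y0 y1 s0 s1 x) ∂(mu G) ≤
      ENNReal.ofReal C * (ENNReal.ofReal (t ^ (d + 2)) * bt G x' t + ENNReal.ofReal (t ^ d * J ^ 2))

/-- Planes with small second moment are close to the standard plane. -/
def T_NRM : Prop := ∀ (d : ℕ) (c κ : ℝ), 0 < c → 0 < κ → ∃ q : ℝ, 0 < q ∧
    ∀ (m : ℕ) (G : V d → V d →L[ℝ] E m), MemLp G 2 (volume.restrict (ball (0 : V d) 2)) →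
    ∀ h mb : ℝ, 0 < h → h ≤ 1 / 64 → c ≤ mb → Cen G h (1 / 4) q mb 0 0 0 0 →
    ∀ (a ν₁ ν₂ : V d), ON ν₁ ν₂ →
    ∫⁻ x in ball (0 : V d) (5 / 8), ENNReal.ofReal (dl a ν₁ ν₂ x) ∂(mu G) ≤ ENNReal.ofReal q →
    ‖zp ν₁‖ ≤ κ ∧ ‖zp ν₂‖ ≤ κ ∧ |⟪a, ν₁⟫| ≤ κ ∧ |⟪a, ν₂⟫| ≤ κ

/-- Graphs are planes. -/
def T_LIN : Prop := ∀ (d : ℕ) (y0 y1 : ℝ) (s0 s1 : E d), ‖s0‖ ≤ 1 / 8 → ‖s1‖ ≤ 1 / 8 →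
    ∃ a ν₁ ν₂ : V d, ON ν₁ ν₂ ∧ a 0 = y0 ∧ a 1 = y1 ∧ zp a = 0 ∧
    ∀ x : V d, 0 ≤ hd y0 y1 s0 s1 x ∧ dl a ν₁ ν₂ x ≤ hd y0 y1 s0 s1 x ∧
      hd y0 y1 s0 s1 x ≤ 2 * dl a ν₁ ν₂ x

/-- Isometries with prescribed normal vectors. -/
def T_ISO : Prop := ∀ (d : ℕ) (ν₁ ν₂ : V d), ON ν₁ ν₂ → ∃ g : V d ≃ₗᵢ[ℝ] V d,
    g (bv 0) = ν₁ ∧ g (bv 1) = ν₂ ∧ ∀ (c : V d) (r : ℝ) (y : V d), dl c ν₁ ν₂ (zm c r g y) =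
      r ^ 2 * rho y ^ 2

/-- Quantisation of the density near the plane. -/
def T_QNT : Prop := ∀ (d : ℕ) (c : ℝ), 0 < c → ∃ κ δ : ℝ, 0 < κ ∧ κ ≤ 1 ∧ 0 < δ ∧
    ∀ (m : ℕ) (L Λ ε er : ℝ), EP d m L Λ ε er →
    ∀ (U : Set (V d)) (u : V d → E m) (G : V d → V d →L[ℝ] E m), SM d m L Λ ε U u G →
    ∀ h R : ℝ, 0 < h → h ≤ 1 / 64 → R ≤ 1 / 4 →
    (∀ (z₀ : E d) (t : ℝ), h / 8 ≤ t → t ≤ 1 / 16 → ‖z₀‖ ≤ R → c ≤ ms G h z₀ t) →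
    oc G (κ * h) 1 ≤ δ * h ^ d →
    ∀ (x : V d) (t : ℝ), h ≤ t → t ≤ 1 / 2 → rho x < t / 4 → ‖zp x‖ ≤ R → 2 * er ≤ th G x t

end

end Pool.Agent.H22.AN
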