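import Pool.Agent.H22.AN.TB1

/-! The Hessian bound in all dimensions (MP_2697e3_an): target statements, part B2: the weighted inequality,
the Nash step, the frame of the optimal plane, the local inequality. -/

namespace Pool.Agent.H22.AN

open MeasureTheory Metric Set Filter Topology Pool.Agent.H87.SN Pool.Agent.H87.SH Pool.Agent.H87.AX
open scoped ContDiff RealInnerProductSpace ENNReal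

noncomputable section

/-! ### The weighted inequality -/

/-- The exponent, `2 - bb d = 1 / (d + 1)`. -/
def bb (d : ℕ) : ℝ := (2 * d + 1) / (d + 1)

/-- The slope. -/
def cc (d : ℕ) : ℝ := 1 / (64 * (d + 1))

/-- The basic function. -/
def DD {d : ℕ} (σ : ℝ) (x : V d) : ℝ :=
  σ ^ 2 + x 0 ^ 2 + x 1 ^ 2 + cc d ^ 2 * (max 0 (‖zp x‖ ^ 2 - 1 / 256)) ^ 2

/-- The weight of the field. -/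
def et {d : ℕ} (σ : ℝ) (x : V d) : ℝ := DD σ x ^ (-(bb d / 2))

/-- The weight of the angular estimate. -/
def ww {d : ℕ} (σ : ℝ) (x : V d) : ℝ := bb d * (rho x ^ bb d * DD σ x ^ (-(bb d)))

/-- Facts on the weights. -/
def T_WTS : Prop := ∀ d : ℕ, 1 ≤ d → ∀ σ : ℝ, 0 < σ → ContDiff ℝ 1 (et (d := d) σ) ∧
    (∀ x : V d, 0 < DD σ x) ∧ (∀ x : V d, 0 < et σ x) ∧
    (∀ x : V d, fderiv ℝ (et σ) x (Jm d x) = 0) ∧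
    (∀ x : V d, kap (et σ) x = bb d * (rho x ^ 2 * DD σ x ^ (-(bb d / 2 + 1)))) ∧
    (∀ x : V d, kap (et σ) x ≤ bb d * et σ x) ∧
    (∀ x ∈ ball (0 : V d) 1, rho x ^ 2 * nzs (fderiv ℝ (et σ) x) ≤
      (2 - bb d) ^ 2 / 512 * (kap (et σ) x * et σ x)) ∧
    ContDiffOn ℝ 1 (ww (d := d) σ) {x | 0 < rho x} ∧ (∀ x : V d, 0 < rho x → 0 < ww σ x) ∧
    (∀ (θ : ℝ) (x : V d), ww σ (rot θ x) = ww σ x) ∧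
    (∀ x ∈ ball (0 : V d) 1, 0 < rho x → rho x ^ 2 * gsq (ww σ) x ≤ 2 * bb d * ww σ x ^ 2) ∧
    (∀ x : V d, 0 < rho x → kap (et σ) x ≤ ww σ x)

/-- Angular estimate with a general constant. -/
def T_ANK : Prop := ∀ κ : ℝ, 0 < κ → κ ≤ 1 → ∃ C : ℝ, 0 ≤ C ∧
    ∀ (d m : ℕ) (U : Set (E (d + 2))) (u : E (d + 2) → E m) (w χ : E (d + 2) → ℝ),
    IsOpen U → RotSet U → (∀ x ∈ U, 0 < rho x) → ContDiffOn ℝ ∞ u U → Orth U u →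
    (∀ x ∈ U, |⟪uthth u x, lap u x⟫| * rho x ^ 2 ≤ κ / 8 * ‖uth u x‖ ^ 2) →
    ContDiffOn ℝ 1 w U → (∀ x ∈ U, 0 < w x) → (∀ (θ : ℝ), ∀ x ∈ U, w (rot θ x) = w x) →
    (∀ x ∈ U, rho x ^ 2 * gsq w x ≤ 4 * (1 - κ) * w x ^ 2) →
    ContDiff ℝ 1 χ → HasCompactSupport χ → tsupport χ ⊆ U →
    (∀ (θ : ℝ) (x : E (d + 2)), χ (rot θ x) = χ x) →
    ∫ x, χ x ^ 2 * w x * (rho x ^ 2)⁻¹ * ‖uth u x‖ ^ 2 ≤ C * ∫ x, w x * gsq χ x * ‖uth u x‖ ^ 2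

/-- The radial cutoff. -/
structure Cz {d : ℕ} (ζ : V d → ℝ) (B : ℝ) : Prop where
  C1 : ContDiff ℝ 1 ζ
  bd : ∀ x, 0 ≤ ζ x ∧ ζ x ≤ 1
  rad : ∀ x y : V d, ‖x‖ = ‖y‖ → ζ x = ζ y
  one : ∀ x, ‖x‖ ≤ 1 / 8 → ζ x = 1
  zero : ∀ x, 1 / 4 ≤ ‖x‖ → ζ x = 0
  gr : ∀ x, gsq ζ x ≤ B ^ 2

/-- Weighted Pohozaev inequality with a sharp error. -/
def T_PZ : Prop := ∀ (d : ℕ) (ζ : V d → ℝ) (B : ℝ), 1 ≤ d → Cz ζ B → ∃ C : ℝ, 0 ≤ C ∧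
    ∀ (m : ℕ) (G : V d → V d →L[ℝ] E m), MemLp G 2 (volume.restrict (ball (0 : V d) 2)) →
    Stat1 G → ∀ σ : ℝ, 0 < σ → σ ≤ 1 / 8 →
    ∫ x in ball (0 : V d) 2, ζ x ^ 2 * (kap (et σ) x * nsq (G x)) ≤
      C * (∫ x in ball (0 : V d) 2, ζ x ^ 2 *
        (kap (et σ) x * ((rho x ^ 2)⁻¹ * ‖G x (Jm d x)‖ ^ 2))) + C * V2 G (1 / 4)

/-- Weighted angular estimate. -/
def T_AZ : Prop := ∀ (d : ℕ) (L B : ℝ) (ζ : V d → ℝ), 1 ≤ d → 0 ≤ L → Cz ζ B →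
    ∃ δ C : ℝ, 0 < δ ∧ 0 ≤ C ∧
    ∀ (m : ℕ) (Λ ε : ℝ) (U : Set (V d)) (u : V d → E m) (G : V d → V d →L[ℝ] E m),
    SM d m L Λ ε U u G → ∀ σ h : ℝ, 0 < h → 4 * h ≤ σ → σ ≤ 1 / 100 →
    (∀ x ∈ ball (0 : V d) (1 / 2), h / 2 < rho x → x ∈ U ∧ rho x ^ 2 * en u x ≤ δ ^ 2) →
    ∫ x in {x : V d | x ∈ ball 0 (1 / 4) ∧ 2 * h ≤ rho x}, ζ x ^ 2 *
      (kap (et σ) x * ((rho x ^ 2)⁻¹ * ‖G x (Jm d x)‖ ^ 2)) ≤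
      C * (h ^ bb d / (σ ^ (2 * bb d) * h ^ 2) *
        (∫ x in {x : V d | x ∈ ball 0 (1 / 4) ∧ rho x < 2 * h}, rho x ^ 2 * nsq (G x)) +
        V2 G (1 / 4))

/-- The three scale inequality, standard plane. -/
def T_KST : Prop := ∀ (d : ℕ) (L : ℝ), 1 ≤ d → 0 ≤ L → ∃ δ C : ℝ, 0 < δ ∧ 0 ≤ C ∧
    ∀ (m : ℕ) (Λ ε : ℝ) (U : Set (V d)) (u : V d → E m) (G : V d → V d →L[ℝ] E m),
    SM d m L Λ ε U u G → ∀ σ h : ℝ, 0 < h → 4 * h ≤ σ → σ ≤ 1 / 200 →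
    (∀ x ∈ ball (0 : V d) (1 / 2), h / 2 < rho x → x ∈ U ∧ rho x ^ 2 * en u x ≤ δ ^ 2) →
    ENNReal.ofReal ((σ ^ 2)⁻¹) * (∫⁻ x in {x : V d | x ∈ ball 0 (1 / 16) ∧ rho x < 10 * σ},
      ENNReal.ofReal (rho x ^ 2) ∂(mu G)) ≤
      ENNReal.ofReal C * (ENNReal.ofReal (h ^ bb d / (σ ^ bb d * h ^ 2)) *
        (∫⁻ x in {x : V d | x ∈ ball 0 (1 / 4) ∧ rho x < 2 * h},
          ENNReal.ofReal (rho x ^ 2) ∂(mu G)) +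
        ENNReal.ofReal (σ ^ bb d) *
          ∫⁻ x in ball (0 : V d) (1 / 4), ENNReal.ofReal (rho x ^ 2) ∂(mu G))

/-! ### The Nash step -/

/-- The smooth second moment of a small cell. -/
def gn {d m : ℕ} (G : V d → V d →L[ℝ] E m) (h : ℝ) (z₀ : E d) : ℝ :=
  ∫ x in ball (0 : V d) 2, bw z₀ h (zp x) * (rho x ^ 2 * chh (2 * h) x ^ 2) * nsq (G x)

/-- The second moment of the small cells varies slowly. -/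
def T_GRD : Prop := ∀ d : ℕ, ∃ C : ℝ, 0 ≤ C ∧ ∀ (m : ℕ) (G : V d → V d →L[ℝ] E m),
    MemLp G 2 (volume.restrict (ball (0 : V d) 2)) → Stat1 G → ∀ h : ℝ, 0 < h → h ≤ 1 / 64 →
    ContDiff ℝ 1 (gn G h) ∧ (∀ z₀ : E d, 0 ≤ gn G h z₀) ∧
    ∫ z in ball (0 : E d) (5 / 16), ‖fderiv ℝ (gn G h) z‖ ≤ C * V2 G (1 / 2)

/-- The Nash step for functions. -/
def T_NSF : Prop := ∀ d : ℕ, ∃ C : ℝ, 0 ≤ C ∧ ∀ (g : E d → ℝ) (r : ℝ), ContDiff ℝ 1 g →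
    (∀ z, 0 ≤ g z) → 0 < r → r ≤ 1 / 64 →
    ∫ z in ball (0 : E d) (9 / 32), g z ≤
      C * (r ^ d)⁻¹ * (∫ z in ball (0 : E d) (5 / 16), Real.sqrt (g z)) ^ 2 +
      2 * r * ∫ z in ball (0 : E d) (5 / 16), ‖fderiv ℝ g z‖

/-- The Nash step. -/
def T_NSH : Prop := ∀ d : ℕ, ∃ C : ℝ, 0 ≤ C ∧ ∀ (m : ℕ) (G : V d → V d →L[ℝ] E m),
    MemLp G 2 (volume.restrict (ball (0 : V d) 2)) → Stat1 G → ∀ h r : ℝ, 0 < h → h ≤ 1 / 64 →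
    0 < r → r ≤ 1 / 64 →
    ∫⁻ x in {x : V d | x ∈ ball 0 (1 / 4) ∧ rho x < 2 * h}, ENNReal.ofReal (rho x ^ 2) ∂(mu G) ≤
      ENNReal.ofReal C * (ENNReal.ofReal ((r ^ d)⁻¹) *
        (ENNReal.ofReal ((h ^ 2)⁻¹) * ∫⁻ y in {y : V d | rho y < h / 8 ∧ ‖zp y‖ < 5 / 16},
          (ENNReal.ofReal ((h ^ d)⁻¹) *
            ∫⁻ x in ball y (6 * h), ENNReal.ofReal (rho x ^ 2) ∂(mu G)) ^ (1 / 2 : ℝ)) ^ 2 +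
        ENNReal.ofReal r * ∫⁻ x in ball (0 : V d) (1 / 2), ENNReal.ofReal (rho x ^ 2) ∂(mu G))

/-- The small scales. -/
def shq (q : ℕ) : ℝ := (1 / 2) ^ (2 * q)

/-- The very small scales. -/
def hhq (d q : ℕ) : ℝ := (1 / 2) ^ ((8 * d + 6) * q)

/-- Both inequalities, standard plane. -/
def T_KNS : Prop := ∀ (d : ℕ) (L : ℝ), 1 ≤ d → 0 ≤ L → ∃ δ C : ℝ, 0 < δ ∧ 0 ≤ C ∧
    ∀ (m : ℕ) (Λ ε : ℝ) (U : Set (V d)) (u : V d → E m) (G : V d → V d →L[ℝ] E m),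
    SM d m L Λ ε U u G → ∀ q : ℕ, 6 ≤ q →
    (∀ x ∈ ball (0 : V d) (1 / 2), hhq d q / 2 < rho x → x ∈ U ∧ rho x ^ 2 * en u x ≤ δ ^ 2) →
    ENNReal.ofReal ((shq q ^ 2)⁻¹) * (∫⁻ x in {x : V d | x ∈ ball 0 (1 / 16) ∧
      rho x < 10 * shq q}, ENNReal.ofReal (rho x ^ 2) ∂(mu G)) ≤
      ENNReal.ofReal (C * (1 / 4) ^ q) * (
        (ENNReal.ofReal ((hhq d q ^ 2)⁻¹) *
          ∫⁻ y in {y : V d | rho y < hhq d q / 8 ∧ ‖zp y‖ < 5 / 16},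
          (ENNReal.ofReal ((hhq d q ^ (d + 2))⁻¹) *
            ∫⁻ x in ball y (6 * hhq d q), ENNReal.ofReal (rho x ^ 2) ∂(mu G)) ^ (1 / 2 : ℝ)) ^ 2 +
        ∫⁻ x in ball (0 : V d) (1 / 2), ENNReal.ofReal (rho x ^ 2) ∂(mu G))

/-- Both inequalities, for all planes and radii. -/
def T_KPL : Prop := ∀ (d : ℕ) (L : ℝ), 1 ≤ d → 0 ≤ L → ∃ δ C : ℝ, 0 < δ ∧ 0 ≤ C ∧
    ∀ (m : ℕ) (Λ ε : ℝ) (U : Set (V d)) (u : V d → E m) (G : V d → V d →L[ℝ] E m),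
    SM d m L Λ ε U u G → ∀ (q : ℕ) (a ν₁ ν₂ : V d) (R : ℝ), 6 ≤ q → ON ν₁ ν₂ → 0 < R → R ≤ 1 / 4 →
    ‖a‖ ≤ 1 / 4 →
    (∀ x ∈ ball a (R / 2), (hhq d q * R / 2) ^ 2 < dl a ν₁ ν₂ x →
      x ∈ U ∧ dl a ν₁ ν₂ x * en u x ≤ δ ^ 2) →
    ENNReal.ofReal (((shq q * R) ^ 2)⁻¹) * (∫⁻ x in {x : V d | x ∈ ball a (R / 16) ∧
      dl a ν₁ ν₂ x < (10 * (shq q * R)) ^ 2}, ENNReal.ofReal (dl a ν₁ ν₂ x) ∂(mu G)) ≤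
      ENNReal.ofReal (C * (1 / 4) ^ q) * (ENNReal.ofReal ((R ^ d)⁻¹) *
        (ENNReal.ofReal (((hhq d q * R) ^ 2)⁻¹) *
          ∫⁻ y in {y : V d | y ∈ ball a (R / 2) ∧ dl a ν₁ ν₂ y < (hhq d q * R / 8) ^ 2},
          (ENNReal.ofReal (((hhq d q * R) ^ (d + 2))⁻¹) *
            ∫⁻ x in ball y (6 * (hhq d q * R)),
              ENNReal.ofReal (dl a ν₁ ν₂ x) ∂(mu G)) ^ (1 / 2 : ℝ)) ^ 2 +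
        ENNReal.ofReal ((R ^ 2)⁻¹) *
          ∫⁻ x in ball a (R / 2), ENNReal.ofReal (dl a ν₁ ν₂ x) ∂(mu G))

/-! ### From second moments to beta numbers in a tube -/

/-- The square root of the normalised second moment of a ball. -/
def Fm {d m : ℕ} (G : V d → V d →L[ℝ] E m) (a ν₁ ν₂ : V d) (t : ℝ) (x : V d) : ℝ≥0∞ :=
  (ENNReal.ofReal ((t ^ (d + 2))⁻¹) *
    ∫⁻ y in ball x (8 * t), ENNReal.ofReal (dl a ν₁ ν₂ y) ∂(mu G)) ^ (1 / 2 : ℝ)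

/-- Cauchy-Schwarz inequality in a tube. -/
def T_TCS : Prop := ∀ d : ℕ, ∃ C : ℝ, 0 ≤ C ∧ ∀ (m : ℕ) (G : V d → V d →L[ℝ] E m),
    MemLp G 2 (volume.restrict (ball (0 : V d) 2)) → ∀ (a ν₁ ν₂ c : V d) (t ρ : ℝ), ON ν₁ ν₂ →
    0 < t → 8 * t ≤ ρ →
    ENNReal.ofReal ((t ^ 2)⁻¹) * (∫⁻ x in {x : V d | x ∈ ball c ρ ∧ dl a ν₁ ν₂ x < (2 * t) ^ 2},
      Fm G a ν₁ ν₂ t x) ≤
      ENNReal.ofReal C * (ENNReal.ofReal (ρ ^ d / t ^ 2) *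
        ∫⁻ x in {x : V d | x ∈ ball c (2 * ρ) ∧ dl a ν₁ ν₂ x < (10 * t) ^ 2},
          ENNReal.ofReal (dl a ν₁ ν₂ x) ∂(mu G)) ^ (1 / 2 : ℝ)

/-- Pointwise bounds by the second moment. -/
def T_FMB : Prop := ∀ d : ℕ, ∃ C : ℝ, 1 ≤ C ∧ ∀ (m : ℕ) (G : V d → V d →L[ℝ] E m),
    MemLp G 2 (volume.restrict (ball (0 : V d) 2)) → ∀ (a ν₁ ν₂ x : V d) (t : ℝ), ON ν₁ ν₂ →
    0 < t → bs G x t ≤ Fm G a ν₁ ν₂ t x ∧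
    ((t / 64) ^ 2 ≤ dl a ν₁ ν₂ x →
      ENNReal.ofReal (Real.sqrt (th G x (t / 128))) ≤ ENNReal.ofReal C * Fm G a ν₁ ν₂ t x)

/-- Volumes of tubes. -/
def T_TVL : Prop := ∀ d : ℕ, ∃ C : ℝ, 0 < C ∧ ∀ (a ν₁ ν₂ c : V d) (s ρ : ℝ), ON ν₁ ν₂ → 0 < s →
    s ≤ ρ → volume {x : V d | x ∈ ball c ρ ∧ dl a ν₁ ν₂ x < s ^ 2} ≤
      ENNReal.ofReal (C * s ^ 2 * ρ ^ d)

/-! ### The frame of the optimal plane -/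

/-- The frame of the optimal plane. -/
structure F1 (d m : ℕ) (L Λ ε r₁ δ e₀ v : ℝ) (U : Set (V d)) (u : V d → E m)
    (G : V d → V d →L[ℝ] E m) (x₁ : V d) : Prop where
  sm : SM d m L Λ ε U u G
  nk : ∀ x ∈ ball (0 : V d) 1, r₁ ≤ rho x → x ∈ U ∧ rho x ^ 2 * en u x ≤ δ ^ 2
  v2 : V2 G 1 ≤ v
  zx : zp x₁ = 0
  rx : rho x₁ ≤ 1 / 8
  ch : e₀ ≤ th G x₁ (1 / 32)

/-- Comparison of a plane near the standard plane with the standard plane. -/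
def T_NEA : Prop := ∀ d : ℕ, ∃ C : ℝ, 1 ≤ C ∧ ∀ (a ν₁ ν₂ : V d) (κ : ℝ), ON ν₁ ν₂ → 0 ≤ κ →
    C * κ ≤ 1 → ‖zp ν₁‖ ≤ κ → ‖zp ν₂‖ ≤ κ → |⟪a, ν₁⟫| ≤ κ → |⟪a, ν₂⟫| ≤ κ →
    ∀ x ∈ ball (0 : V d) 2, |Real.sqrt (dl a ν₁ ν₂ x) - rho x| ≤ C * κ

/-- Energy in the neck. -/
def T_OCN : Prop := ∀ d : ℕ, ∃ C : ℝ, 0 ≤ C ∧ ∀ (m : ℕ) (L Λ ε : ℝ) (U : Set (V d)) (u : V d → E m)
    (G : V d → V d →L[ℝ] E m), SM d m L Λ ε U u G → ∀ (r₁ δ R : ℝ), 0 < r₁ → R ≤ 2 →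
    (∀ x ∈ ball (0 : V d) R, r₁ ≤ rho x → x ∈ U ∧ rho x ^ 2 * en u x ≤ δ ^ 2) →
    oc G r₁ R ≤ C * δ ^ 2 / r₁ ^ 2 ∧
    ∀ (x : V d) (t : ℝ), 0 < t → r₁ ≤ t → ball x t ⊆ ball 0 R → (∀ y ∈ ball x t, t / 2 ≤ rho y) →
      r₁ ≤ t / 2 → th G x t ≤ C * δ ^ 2

/-- From the frame of a pinched cell to the frame of the optimal plane. -/
def T_FR1 : Prop := ∀ (d m : ℕ) (L Λ ε e₀ r₁ δ v : ℝ), 1 ≤ d → 0 ≤ L → 0 < Λ → 0 < ε → 0 < e₀ →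
    0 < r₁ → 0 < δ → 0 < v → ∃ (K : ℕ) (om : ℝ), 0 < om ∧
    ∀ (U : Set (V d)) (u : V d → E m) (G : V d → V d →L[ℝ] E m), SM d m L Λ ε U u G →
    ∀ x₀ : V d, Fr G ((1 / 2) ^ K) om e₀ x₀ → ∀ η : ℝ, 0 < η →
    ∃ (c : V d) (g : V d ≃ₗᵢ[ℝ] V d) (x₁ : V d), ‖c‖ ≤ 1 / 16 ∧ x₀ = zm c (1 / 2) g x₁ ∧
    F1 d m L Λ ε r₁ δ e₀ v (ball 0 2 ∩ zm c (1 / 2) g ⁻¹' U) (fun y => u (zm c (1 / 2) g y))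
      (zG c (1 / 2) g G) x₁ ∧
    ∀ x ∈ ball x₀ (1 / 16), ENNReal.ofReal (V2 (zG c (1 / 2) g G) 1) ≤
      bt G x (1 / 8) + ENNReal.ofReal η

/-- The right side of the local inequality in the frame of the optimal plane. -/
def R1 {d m : ℕ} (G : V d → V d →L[ℝ] E m) (e C : ℝ) (q r : ℕ) (x₁ : V d) : ℝ≥0∞ :=
  ENNReal.ofReal (C * (1 / 2) ^ q) * (
    ENNReal.ofReal (((hhq d q * (1 / 2) ^ r) ^ 2)⁻¹) *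
      (∫⁻ x in {x : V d | x ∈ ball x₁ ((1 / 2) ^ r) ∧ e ≤ th G x (hhq d q * (1 / 2) ^ r)},
        bs G x (hhq d q * (1 / 2) ^ r)) +
    ENNReal.ofReal ((((1 / 2) ^ r) ^ 2)⁻¹) *
      (∫⁻ x in {x : V d | x ∈ ball x₁ ((1 / 2) ^ r) ∧ e ≤ th G x ((1 / 2) ^ r)},
        bs G x ((1 / 2) ^ r)) +
    ENNReal.ofReal (((1 / 2) ^ r) ^ d * Real.sqrt (V2 G 1)))

/-- What the frame of the optimal plane gives: masses, centroids, quantisation. -/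
def T_F1C : Prop := ∀ (d m : ℕ) (L Λ ε er e₀ : ℝ), 1 ≤ d → 0 ≤ L → 0 < Λ → 0 < ε → 0 < er →
    EP d m L Λ ε er → 0 < e₀ → ∃ c C : ℝ, 0 < c ∧ 1 ≤ C ∧ ∀ h : ℝ, 0 < h → h ≤ 1 / 64 →
    ∃ r₁ δ v : ℝ, 0 < r₁ ∧ r₁ ≤ h / 100 ∧ 0 < δ ∧ 0 < v ∧
    ∀ (U : Set (V d)) (u : V d → E m) (G : V d → V d →L[ℝ] E m) (x₁ : V d),
    F1 d m L Λ ε r₁ δ e₀ v U u G x₁ →
    (∀ (x : V d) (t : ℝ), h ≤ t → t ≤ 1 / 2 → rho x < t / 4 → ‖zp x‖ ≤ 1 / 4 →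
      2 * er ≤ th G x t) ∧
    ∀ R : ℝ, 0 < R → R ≤ 1 / 4 → ∃ (mb y0 y1 : ℝ) (s0 s1 : E d), c ≤ mb ∧
      |y0| + |y1| + ‖s0‖ + ‖s1‖ ≤ C * Real.sqrt (V2 G 1) ∧
      Cen G h R (C / h ^ (d + 5) * V2 G 1 + C * R ^ 2 * Real.sqrt (V2 G 1)) mb y0 y1 s0 s1

/-- The local inequality in the frame of the optimal plane. -/
def T_LC1 : Prop := ∀ (d m : ℕ) (L Λ ε er e e₀ : ℝ), 1 ≤ d → 0 ≤ L → 0 < Λ → 0 < ε → 0 < er →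
    EP d m L Λ ε er → 0 < e → e ≤ 2 * er → 0 < e₀ → ∃ C : ℝ, 0 ≤ C ∧ ∀ q : ℕ, 6 ≤ q →
    ∃ (r : ℕ) (r₁ δ v : ℝ), 8 ≤ r ∧ 0 < r₁ ∧ 0 < δ ∧ 0 < v ∧
    ∀ (U : Set (V d)) (u : V d → E m) (G : V d → V d →L[ℝ] E m) (x₁ : V d),
    F1 d m L Λ ε r₁ δ e₀ v U u G x₁ →
    {x : V d | x ∈ ball x₁ ((1 / 2) ^ r / 256) ∧ e₀ ≤ th G x (shq q * (1 / 2) ^ r)} = ∅ ∨
    (rho x₁ ≤ 1 / 64 ∧
    (∀ x : V d, rho x < 1 / 16 → ‖zp x‖ ≤ 1 / 8 → 2 * er ≤ th G x (1 / 4)) ∧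
    ENNReal.ofReal (((shq q * (1 / 2) ^ r) ^ 2)⁻¹) *
      (∫⁻ x in {x : V d | x ∈ ball x₁ ((1 / 2) ^ r / 256) ∧ e₀ ≤ th G x (shq q * (1 / 2) ^ r)},
        bs G x (shq q * (1 / 2) ^ r)) ≤ R1 G e C q r x₁ ∧
    ENNReal.ofReal (((shq q * (1 / 2) ^ r) ^ 2)⁻¹) *
      (∫⁻ x in {x : V d | x ∈ ball x₁ ((1 / 2) ^ r / 256) ∧ e₀ ≤ th G x (shq q * (1 / 2) ^ r) ∧
          th G x (shq q * (1 / 2) ^ r / 8) < 2 * er},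
        ENNReal.ofReal (Real.sqrt (th G x (shq q * (1 / 2) ^ r / 128)))) ≤ R1 G e C q r x₁)

end

end Pool.Agent.H22.AN
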