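import Pool.Agent.H22.AN.TB2

/-! The Hessian bound in all dimensions (MP_2697e3_an): target statements, part B3: three intermediate
statements, for `T_FR1` and for `T_LC1`. -/

namespace Pool.Agent.H22.AN

open MeasureTheory Metric Set Filter Topology Pool.Agent.H87.SN Pool.Agent.H87.SH Pool.Agent.H87.AX
open scoped ContDiff RealInnerProductSpace ENNReal

noncomputable section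

/-- Planes with nearly optimal second moment in a pinched cell. -/
def T_FRA : Prop := ∀ (d m : ℕ) (L Λ ε e₀ κ : ℝ), 1 ≤ d → 0 ≤ L → 0 < Λ → 0 < ε → 0 < e₀ → 0 < κ →
    ∃ (K : ℕ) (om : ℝ), 0 < om ∧ ∀ (U : Set (V d)) (u : V d → E m) (G : V d → V d →L[ℝ] E m),
    SM d m L Λ ε U u G → ∀ x₀ : V d, Fr G ((1 / 2) ^ K) om e₀ x₀ →
    (∀ x ∈ ball (0 : V d) (5 / 8), κ ≤ rho x → x ∈ U ∧ rho x * Real.sqrt (en u x) ≤ κ) ∧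
    ∀ η : ℝ, 0 < η → ∃ a ν₁ ν₂ : V d, ON ν₁ ν₂ ∧ ‖zp ν₁‖ ≤ κ ∧ ‖zp ν₂‖ ≤ κ ∧ |⟪a, ν₁⟫| ≤ κ ∧
      |⟪a, ν₂⟫| ≤ κ ∧
      ∫⁻ x in ball (0 : V d) (5 / 8), ENNReal.ofReal (dl a ν₁ ν₂ x) ∂(mu G) ≤ ENNReal.ofReal κ ∧
      ∀ x ∈ ball x₀ (1 / 16), ENNReal.ofReal (2 ^ (d + 2)) *
        ∫⁻ y in ball (0 : V d) (5 / 8), ENNReal.ofReal (dl a ν₁ ν₂ y) ∂(mu G) ≤
        bt G x (1 / 8) + ENNReal.ofReal η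

/-- Geometry of a plane close to the standard plane. -/
def T_LGE : Prop := ∀ d : ℕ, ∃ C : ℝ, 1 ≤ C ∧ ∀ (m : ℕ) (L Λ ε : ℝ) (U : Set (V d)) (u : V d → E m)
    (G : V d → V d →L[ℝ] E m), SM d m L Λ ε U u G →
    ∀ (r₁ δ ε₁ y0 y1 : ℝ) (s0 s1 : E d) (a ν₁ ν₂ : V d), 0 < r₁ → 0 ≤ ε₁ → ON ν₁ ν₂ →
    (∀ x ∈ ball (0 : V d) 1, r₁ ≤ rho x → x ∈ U ∧ rho x ^ 2 * en u x ≤ δ ^ 2) →
    |y0| + |y1| + ‖s0‖ + ‖s1‖ ≤ ε₁ →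
    (∀ x : V d, dl a ν₁ ν₂ x ≤ hd y0 y1 s0 s1 x ∧ hd y0 y1 s0 s1 x ≤ 2 * dl a ν₁ ν₂ x) →
    (∀ x ∈ ball (0 : V d) 1, Real.sqrt (dl a ν₁ ν₂ x) ≤ rho x + ε₁ ∧
      rho x ≤ 3 / 2 * Real.sqrt (dl a ν₁ ν₂ x) + ε₁) ∧
    (∀ t : ℝ, 2 * r₁ ≤ t → 4 * ε₁ ≤ t → t ≤ 1 / 4 → ∀ x ∈ ball (0 : V d) (1 / 2),
      (2 * t) ^ 2 ≤ dl a ν₁ ν₂ x → th G x t ≤ C * δ ^ 2) ∧
    (∀ t : ℝ, 4 * r₁ ≤ t → 8 * ε₁ ≤ t → ∀ x ∈ ball (0 : V d) (1 / 2),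
      (t / 2) ^ 2 < dl a ν₁ ν₂ x → x ∈ U ∧ dl a ν₁ ν₂ x * en u x ≤ 4 * δ ^ 2)

/-- Second moments at the small scale and at the large scale are controlled by beta numbers. -/
def T_LQA : Prop := ∀ (d : ℕ) (Λ c : ℝ), 0 < Λ → 0 < c → ∃ C : ℝ, 1 ≤ C ∧
    ∀ (m : ℕ) (G : V d → V d →L[ℝ] E m), GD Λ G → ∀ (h R J mb y0 y1 e : ℝ) (s0 s1 : E d)
    (a ν₁ ν₂ : V d), 0 < h → h ≤ R → R ≤ 1 / 64 → 0 ≤ J → c ≤ mb →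
    |y0| + |y1| + ‖s0‖ + ‖s1‖ ≤ h / C → Cen G h (2 * R) J mb y0 y1 s0 s1 → ON ν₁ ν₂ →
    a 0 = y0 → a 1 = y1 → zp a = 0 →
    (∀ x : V d, dl a ν₁ ν₂ x ≤ hd y0 y1 s0 s1 x ∧ hd y0 y1 s0 s1 x ≤ 2 * dl a ν₁ ν₂ x) →
    (∀ (x : V d) (t : ℝ), h ≤ t → t ≤ 1 / 2 → rho x < t / 4 → ‖zp x‖ ≤ 1 / 4 → e ≤ th G x t) →
    ENNReal.ofReal ((h ^ 2)⁻¹) *
      (∫⁻ y in {y : V d | y ∈ ball a (R / 2) ∧ dl a ν₁ ν₂ y < (h / 8) ^ 2},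
        (ENNReal.ofReal ((h ^ (d + 2))⁻¹) *
          ∫⁻ x in ball y (6 * h), ENNReal.ofReal (dl a ν₁ ν₂ x) ∂(mu G)) ^ (1 / 2 : ℝ)) ≤
      ENNReal.ofReal C * (ENNReal.ofReal ((h ^ 2)⁻¹) *
        (∫⁻ x in {x : V d | x ∈ ball a (R / 2) ∧ e ≤ th G x h}, bs G x h) +
        ENNReal.ofReal (R ^ d * J / h)) ∧
    (ENNReal.ofReal (R ^ d / R ^ 2) *
      ∫⁻ x in ball a (R / 2), ENNReal.ofReal (dl a ν₁ ν₂ x) ∂(mu G)) ^ (1 / 2 : ℝ) ≤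
      ENNReal.ofReal C * (ENNReal.ofReal ((R ^ 2)⁻¹) *
        (∫⁻ x in {x : V d | x ∈ ball a (R / 2) ∧ e ≤ th G x R}, bs G x R) +
        ENNReal.ofReal (R ^ d * J / R))

end

end Pool.Agent.H22.AN
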